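import Mathlib
import Pool.Agent.N359.EMC.Ratio

/-!
# The Erdős matching conjecture for `n ≥ (k + 39/40) s`, `n` large
-/

set_option autoImplicit false

namespace Pool.Agent.Results.MP_9079fe_co.ExactForLargeN

open Finset Filter Topology

/-- `e k n s`: the largest number of members of a family of `k`-element subsets of an `n`-element
set whose matching number is at most `s` (the maximum is over a nonempty bounded set). -/
noncomputable def e (k n s : ℕ) : ℕ :=
  sSup {c : ℕ | ∃ F : Finset (Finset (Fin n)), F.card = c ∧ (∀ A ∈ F, A.card = k) ∧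
    ∀ M : Finset (Finset (Fin n)), M ⊆ F →
      (M : Set (Finset (Fin n))).PairwiseDisjoint id → M.card ≤ s}

/-- `A0 n k s = |𝒜₀(n,k,s)|`, the number of `k`-subsets of `[n]` meeting `[s]`. -/
def A0 (n k s : ℕ) : ℕ := n.choose k - (n - s).choose k

/-- `Ak k s = |𝒜ₖ(k,s)|`, the number of `k`-subsets of a set of `k(s+1)-1` elements. -/
def Ak (k s : ℕ) : ℕ := (k * (s + 1) - 1).choose k

/-- For every `k ≥ 2` there is `n0` such that the conjecture `e_k(n,s) = max(|A_0|, |A_k|)` is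
true for all `n ≥ n0` and all `s` with `n ≥ (k + 39/40) s` (and then `n ≥ k (s+1)`, and the
maximum is `|A_0|`). -/
theorem result (k : ℕ) (hk : 2 ≤ k) :
    ∃ n0 : ℕ, ∀ n : ℕ, n0 ≤ n → ∀ s : ℕ, ((k : ℝ) + 39 / 40) * s ≤ n →
      k * (s + 1) ≤ n ∧ Ak k s ≤ A0 n k s ∧ e k n s = max (A0 n k s) (Ak k s) := by
  obtain ⟨n0, h0⟩ := Pool.Agent.W890.SF.R2.value Pool.Agent.W890.SF.t_EMC
    Pool.Agent.W890.SF.t_LOW k hk
  refine ⟨n0, fun n hn s hs => ?_⟩
  have hs' : (40 * k + 39) * s ≤ 40 * n := by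
    have h1 : (40 * (k : ℝ) + 39) * s ≤ 40 * n := by linarith
    exact_mod_cast h1
  obtain ⟨h1, h2, h3⟩ := h0 n hn s hs'
  exact ⟨h1, h3, h2.trans (max_eq_left h3).symm⟩

end Pool.Agent.Results.MP_9079fe_co.ExactForLargeN
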